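import Pool.Agent.H43.SF.Gr
import Pool.Agent.H50.SF.Const
import Pool.Agent.H55.SQ.Elts

/-!
# SF.DatI : the concrete data of the fixed point
-/

set_option autoImplicit false

noncomputable section

namespace Pool.Agent.H43.SF

open Pool.Agent.H50.SF (Dat cst)

/-- the data -/
def dat : Dat X1 A0 where
  inc := incL.toLinearMap
  pr := LinearMap.mk₂ ℝ (fun f g => prL f g) (fun f f' g => by rw [map_add, add_apply])
    (fun t f g => by rw [map_smul, smul_apply]) (fun f g g' => map_add _ _ _) (fun t f g => map_smul _ _ _)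
  gam := gamL
  y1 := y1.toLinearMap
  y2 := y2.toLinearMap
  z1 := z1.toLinearMap
  z2 := z2.toLinearMap
  l1 := l1.toLinearMap
  l2 := l2.toLinearMap
  b := SF.El.eB w1
  zb := SF.El.eZ w0
  lb := SF.El.eL w0
  ch := SF.El.eCh w0
  ch1 := SF.El.eCh1 w0
  kap := SF.El.eKap w0
  q3 := SF.El.eQ3 w0
  p := SF.El.eP w0
  si := SF.El.eSi w0
  a := SF.El.eA w0

theorem w0_ell : w0 SF.ell ≤ 10491 / 10000 := nu1_pow_ell

theorem w1_ell : w1 SF.ell ≤ 10491 / 10000 := by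
  unfold w1
  rw [muh_low (by unfold SF.ell; norm_num), mul_one]
  exact nu1_pow_ell

theorem dat_ok : dat.Ok cst where
  inc f := norm_inc_le f
  inc_pr f g := inc_pr f g
  pr f g := by
    have h : ‖dat.pr f g‖ ≤ 2 * (‖f‖ * ‖g‖) := norm_pr_le f g
    norm_num [cst] at h ⊢
    exact h
  gam f g := by
    have h : ‖dat.gam f g‖ ≤ 1001 / 1000 * (‖f‖ * ‖g‖) := norm_gam_le f g
    norm_num [cst] at h ⊢
    exact h
  y1 g := by
    have h : ‖dat.y1 g‖ ≤ 330 * ‖dat.inc g‖ + 7 * ‖g‖ := norm_y1_le g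
    norm_num [cst] at h ⊢
    exact h
  y2 k := by
    have h : ‖dat.y2 k‖ ≤ 21 * ‖k‖ := norm_y2_le k
    norm_num [cst] at h ⊢
    exact h
  z1 g := by
    have h : ‖dat.z1 g‖ ≤ 84 * ‖dat.inc g‖ + 8 * ‖g‖ := norm_z1_le g
    norm_num [cst] at h ⊢
    exact h
  z2 k := by
    have h : ‖dat.z2 k‖ ≤ 11 / 2 * ‖k‖ := norm_z2_le k
    norm_num [cst] at h ⊢
    exact h
  l1 g := by
    have h : ‖dat.l1 g‖ ≤ 84 * ‖dat.inc g‖ + 8 * ‖g‖ := norm_l1_le g
    norm_num [cst] at h ⊢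
    exact h
  l2 k := by
    have h : ‖dat.l2 k‖ ≤ 11 / 2 * ‖k‖ := norm_l2_le k
    norm_num [cst] at h ⊢
    exact h
  b := by
    have h : ‖dat.b‖ ≤ 109 / 100 := SF.El.norm_eB (w1_pos _) w1_ell
    norm_num [cst] at h ⊢
    exact h
  zb := by
    have h : ‖dat.zb‖ ≤ 275 / 1000 := SF.El.norm_eZ (w0_pos _) w0_ell
    norm_num [cst] at h ⊢
    exact h
  lb := by
    have h : ‖dat.lb‖ ≤ 43 / 1000 := SF.El.norm_eL (w0_pos _) w0_ell
    norm_num [cst] at h ⊢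
    exact h
  ch := by
    have h : ‖dat.ch‖ ≤ 1 := SF.El.norm_eCh
    norm_num [cst] at h ⊢
    exact h
  ch1 := by
    have h : ‖dat.ch1‖ ≤ 12 := SF.El.norm_eCh1
    norm_num [cst] at h ⊢
    exact h
  kap := by
    have h : ‖dat.kap‖ ≤ 123 / 10 := SF.El.norm_eKap
    norm_num [cst] at h ⊢
    exact h
  q3 := by
    have h : ‖dat.q3‖ ≤ 2526 / 10000 := SF.El.norm_eQ3
    norm_num [cst] at h ⊢
    exact h
  p := by
    have h : ‖dat.p‖ ≤ 2502 / 10000 := SF.El.norm_eP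
    norm_num [cst] at h ⊢
    exact h
  si := by
    have h : ‖dat.si‖ ≤ 1 / 1210 := SF.El.norm_eSi
    norm_num [cst] at h ⊢
    exact h
  a := by
    have h : ‖dat.a‖ ≤ 1 := SF.El.norm_eA
    norm_num [cst] at h ⊢
    exact h

end Pool.Agent.H43.SF
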