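import Pool.Agent.H43.SF.Sp
import Pool.Agent.H37.SG.Fin

/-!
# SF.Gr : the Green operators on `X1`, `A0`

`y1 y2 z1 z2 l1 l2` : the diagonal operators of helper37's `SG.Y1 SG.Y2 SG.Z1 SG.Z2`, `l = -(lam k / s ^ 2) z`.
-/

set_option autoImplicit false

noncomputable section

namespace Pool.Agent.H43.SF

open Pool.Agent.H27.Leg (W diag co sc co_diag norm_diag_le hasSum_norm_co evn evnAlg)

theorem muh_eq (k : ℕ) : SG.mh k = muh k := rfl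

/-- a diagonal operator with a bound in two norms, into `X1` -/
theorem two_norm {w : ℕ → ℝ} (hw : ∀ n, 0 < w n) {c0 c1 : ℝ} (f : X1) (g : W CI w)
    (h : ∀ n, w n * ‖co g n‖ ≤ (c0 * w0 n + c1 * w1 n) * ‖co f n‖) : ‖g‖ ≤ c0 * ‖incL f‖ + c1 * ‖f‖ := by
  have h1 := hasSum_norm_co hw g
  have h2 : HasSum (fun n => c0 * (w0 n * ‖co (incL f) n‖) + c1 * (w1 n * ‖co f n‖)) (c0 * ‖incL f‖ + c1 * ‖f‖) :=
    ((hasSum_norm_co w0_pos (incL f)).mul_left c0).add ((hasSum_norm_co w1_pos f).mul_left c1)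
  refine hasSum_le (fun n => ?_) h1 h2
  refine (h n).trans (le_of_eq ?_)
  rw [co_inc]
  ring

/-- multiplication by `-(lam k / s ^ 2)` -/
def lamM (k : ℕ) : CI →L[ℝ] CI := ContinuousLinearMap.mul ℝ CI ((-SF.lam k) • isq)

theorem lamM_apply (k : ℕ) (f : CI) (s : Set.Icc SF.R0 SF.rho) : lamM k f s = -(SF.lam k / (s : ℝ) ^ 2) * f s := by
  have h : lamM k f s = (-SF.lam k) * (1 / (s : ℝ) ^ 2) * f s := rfl
  rw [h]
  ring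

theorem norm_lamM_le (k : ℕ) (f : CI) : ‖lamM k f‖ ≤ SF.lam k / SF.R0 ^ 2 * ‖f‖ := by
  have h : lamM k f = ((-SF.lam k) • isq) * f := rfl
  rw [h]
  refine (norm_mul_le _ _).trans (mul_le_mul_of_nonneg_right ?_ (norm_nonneg _))
  rw [norm_smul, Real.norm_eq_abs, abs_neg, abs_of_nonneg (lam_nonneg k), div_eq_mul_one_div]
  exact mul_le_mul_of_nonneg_left norm_isq_le (lam_nonneg k)

theorem norm_lamM_comp_le (k : ℕ) (T : CI →L[ℝ] CI) : ‖(lamM k).comp T‖ ≤ SF.lam k / SF.R0 ^ 2 * ‖T‖ := by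
  have h0 : 0 ≤ SF.lam k / SF.R0 ^ 2 := div_nonneg (lam_nonneg k) (sq_nonneg _)
  have hT : 0 ≤ ‖T‖ := ContinuousLinearMap.opNorm_nonneg T
  refine ContinuousLinearMap.opNorm_le_bound _ (mul_nonneg h0 hT) fun f => ?_
  refine (norm_lamM_le k (T f)).trans ?_
  rw [mul_assoc]
  exact mul_le_mul_of_nonneg_left (T.le_opNorm f) h0

theorem hy1 (n : ℕ) : w1 n * ‖SG.Y1 n‖ ≤ 337 * w1 n := by
  have h := SG.bd_Y1 n
  rw [muh_eq] at h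
  have h1 := one_le_muh n
  have h2 := w0_pos n
  have h3 : w1 n * ‖SG.Y1 n‖ = w0 n * (muh n * ‖SG.Y1 n‖) := by unfold w1 w0; ring
  rw [h3]
  have h4 : 337 * w1 n = w0 n * (337 * muh n) := by unfold w1 w0; ring
  rw [h4]
  exact mul_le_mul_of_nonneg_left (by linarith) h2.le

theorem hy2 (n : ℕ) : w1 n * ‖SG.Y2 n‖ ≤ 21 * w0 n := by
  have h := SG.bd_Y2 n
  rw [muh_eq] at h
  have h3 : w1 n * ‖SG.Y2 n‖ = w0 n * (muh n * ‖SG.Y2 n‖) := by unfold w1 w0; ring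
  rw [h3, mul_comm 21]
  exact mul_le_mul_of_nonneg_left h (w0_pos n).le

theorem hz1 (n : ℕ) : w0 n * ‖SG.Z1 n‖ ≤ 84 * w1 n := by
  have h := SG.bd_Z1 n
  have h1 := w0_le_w1 n
  have h2 := w0_pos n
  calc w0 n * ‖SG.Z1 n‖ ≤ w0 n * 84 := mul_le_mul_of_nonneg_left h h2.le
    _ ≤ 84 * w1 n := by linarith

theorem hz2 (n : ℕ) : w0 n * ‖SG.Z2 n‖ ≤ (11 / 2) * w0 n := by
  have h := SG.bd_Z2 n
  rw [mul_comm]
  exact mul_le_mul_of_nonneg_right (by linarith) (w0_pos n).le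

theorem hl1 (n : ℕ) : w0 n * ‖(lamM n).comp (SG.Z1 n)‖ ≤ 92 * w1 n := by
  have h := (norm_lamM_comp_le n (SG.Z1 n)).trans (SG.bd_L1 n)
  rw [muh_eq] at h
  have h1 := one_le_muh n
  have h4 : 92 * w1 n = w0 n * (92 * muh n) := by unfold w1 w0; ring
  rw [h4]
  exact mul_le_mul_of_nonneg_left (by linarith) (w0_pos n).le

theorem hl2 (n : ℕ) : w0 n * ‖(lamM n).comp (SG.Z2 n)‖ ≤ (11 / 2) * w0 n := by
  have h := (norm_lamM_comp_le n (SG.Z2 n)).trans (SG.bd_L2 n)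
  rw [mul_comm]
  exact mul_le_mul_of_nonneg_right (by linarith) (w0_pos n).le

/-- the Green operators -/
def y1 : X1 →L[ℝ] X1 := diag w1 w1 SG.Y1 hy1 w1_pos w1_pos
def y2 : A0 →L[ℝ] X1 := diag w0 w1 SG.Y2 hy2 w0_pos w1_pos
def z1 : X1 →L[ℝ] A0 := diag w1 w0 SG.Z1 hz1 w1_pos w0_pos
def z2 : A0 →L[ℝ] A0 := diag w0 w0 SG.Z2 hz2 w0_pos w0_pos
def l1 : X1 →L[ℝ] A0 := diag w1 w0 (fun n => (lamM n).comp (SG.Z1 n)) hl1 w1_pos w0_pos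
def l2 : A0 →L[ℝ] A0 := diag w0 w0 (fun n => (lamM n).comp (SG.Z2 n)) hl2 w0_pos w0_pos

theorem co_y1 (f : X1) (n : ℕ) : co (y1 f) n = SG.Y1 n (co f n) := co_diag _ _ _ _ _
theorem co_y2 (f : A0) (n : ℕ) : co (y2 f) n = SG.Y2 n (co f n) := co_diag _ _ _ _ _
theorem co_z1 (f : X1) (n : ℕ) : co (z1 f) n = SG.Z1 n (co f n) := co_diag _ _ _ _ _
theorem co_z2 (f : A0) (n : ℕ) : co (z2 f) n = SG.Z2 n (co f n) := co_diag _ _ _ _ _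
theorem co_l1 (f : X1) (n : ℕ) : co (l1 f) n = lamM n (SG.Z1 n (co f n)) := co_diag _ _ _ _ _
theorem co_l2 (f : A0) (n : ℕ) : co (l2 f) n = lamM n (SG.Z2 n (co f n)) := co_diag _ _ _ _ _

theorem norm_y1_le (g : X1) : ‖y1 g‖ ≤ 330 * ‖incL g‖ + 7 * ‖g‖ := by
  refine two_norm w1_pos g _ fun n => ?_
  rw [co_y1]
  have h := SG.bd_Y1 n
  rw [muh_eq] at h
  have h1 : ‖SG.Y1 n (co g n)‖ ≤ ‖SG.Y1 n‖ * ‖co g n‖ := (SG.Y1 n).le_opNorm _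
  calc w1 n * ‖SG.Y1 n (co g n)‖ ≤ w1 n * (‖SG.Y1 n‖ * ‖co g n‖) := mul_le_mul_of_nonneg_left h1 (w1_pos n).le
    _ = w0 n * (muh n * ‖SG.Y1 n‖) * ‖co g n‖ := by unfold w1 w0; ring
    _ ≤ w0 n * (330 + 7 * muh n) * ‖co g n‖ :=
        mul_le_mul_of_nonneg_right (mul_le_mul_of_nonneg_left h (w0_pos n).le) (norm_nonneg _)
    _ = (330 * w0 n + 7 * w1 n) * ‖co g n‖ := by unfold w1 w0; ring

theorem norm_z1_le (g : X1) : ‖z1 g‖ ≤ 84 * ‖incL g‖ + 8 * ‖g‖ := by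
  refine two_norm w0_pos g _ fun n => ?_
  rw [co_z1]
  have h := SG.bd_Z1 n
  have h1 : ‖SG.Z1 n (co g n)‖ ≤ ‖SG.Z1 n‖ * ‖co g n‖ := (SG.Z1 n).le_opNorm _
  have h2 := w0_pos n
  have h3 := w1_pos n
  calc w0 n * ‖SG.Z1 n (co g n)‖ ≤ w0 n * (‖SG.Z1 n‖ * ‖co g n‖) := mul_le_mul_of_nonneg_left h1 h2.le
    _ = (w0 n * ‖SG.Z1 n‖) * ‖co g n‖ := by ring
    _ ≤ (w0 n * 84) * ‖co g n‖ :=
        mul_le_mul_of_nonneg_right (mul_le_mul_of_nonneg_left h h2.le) (norm_nonneg _)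
    _ ≤ (84 * w0 n + 8 * w1 n) * ‖co g n‖ := mul_le_mul_of_nonneg_right (by linarith) (norm_nonneg _)

theorem norm_l1_le (g : X1) : ‖l1 g‖ ≤ 84 * ‖incL g‖ + 8 * ‖g‖ := by
  refine two_norm w0_pos g _ fun n => ?_
  rw [co_l1]
  have h := SG.bd_L1 n
  rw [muh_eq] at h
  have h1 : ‖SG.Z1 n (co g n)‖ ≤ ‖SG.Z1 n‖ * ‖co g n‖ := (SG.Z1 n).le_opNorm _
  have h2 := w0_pos n
  have h0 : 0 ≤ SF.lam n / SF.R0 ^ 2 := div_nonneg (lam_nonneg n) (sq_nonneg _)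
  calc w0 n * ‖lamM n (SG.Z1 n (co g n))‖ ≤ w0 n * (SF.lam n / SF.R0 ^ 2 * (‖SG.Z1 n‖ * ‖co g n‖)) :=
        mul_le_mul_of_nonneg_left ((norm_lamM_le n _).trans (mul_le_mul_of_nonneg_left h1 h0)) h2.le
    _ = w0 n * (SF.lam n / SF.R0 ^ 2 * ‖SG.Z1 n‖) * ‖co g n‖ := by ring
    _ ≤ w0 n * (84 + 8 * muh n) * ‖co g n‖ :=
        mul_le_mul_of_nonneg_right (mul_le_mul_of_nonneg_left h h2.le) (norm_nonneg _)
    _ = (84 * w0 n + 8 * w1 n) * ‖co g n‖ := by unfold w1 w0; ring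

theorem norm_y2_le (h : A0) : ‖y2 h‖ ≤ 21 * ‖h‖ := norm_diag_le _ _ _ _
theorem norm_z2_le (h : A0) : ‖z2 h‖ ≤ 11 / 2 * ‖h‖ := norm_diag_le _ _ _ _
theorem norm_l2_le (h : A0) : ‖l2 h‖ ≤ 11 / 2 * ‖h‖ := norm_diag_le _ _ _ _

/-- `l = -(lam k / s ^ 2) z` -/
theorem lz (g : X1) (f : A0) (k : ℕ) (s : Set.Icc SF.R0 SF.rho) :
    co (l1 g + l2 f) k s = -(SF.lam k / (s : ℝ) ^ 2) * co (z1 g + z2 f) k s := by
  rw [Pool.Agent.H27.Leg.co_add, Pool.Agent.H27.Leg.co_add, co_l1, co_l2, co_z1, co_z2, ContinuousMap.add_apply, ContinuousMap.add_apply,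
    lamM_apply, lamM_apply]
  ring

/-- the Green operators of the even modes -/
theorem green (g : X1) (f : A0) (k : ℕ) (hk : Even k) : ∃ z y : ℝ → ℝ,
    SG.PSol ((k : ℝ) * (k + 1)) (fun t => SG.kapX t / 2 * SG.ext SG.R0_le (co g k) t) (SG.ext SG.R0_le (co f k)) z y ∧
      (∀ s : Set.Icc SF.R0 SF.rho, z s = co (z1 g + z2 f) k s) ∧ (∀ s : Set.Icc SF.R0 SF.rho, y s = co (y1 g + y2 f) k s) ∧ z SF.rho = 0 ∧
      (k ≠ SF.ell → y SF.R0 * Pool.Agent.H68.SC.jl k SF.R0 = -(z SF.R0 * Pool.Agent.H68.SC.djl k SF.R0)) ∧ (k = SF.ell → y SF.rho = 0) := by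
  obtain ⟨z, y, h1, h2, h3, h4⟩ := SG.spec k hk (co g k) (co f k)
  refine ⟨z, y, h1, ?_, ?_, h4⟩
  · intro s
    rw [h2 s, Pool.Agent.H27.Leg.co_add, co_z1, co_z2]
  · intro s
    rw [h3 s, Pool.Agent.H27.Leg.co_add, co_y1, co_y2]

theorem high (g : X1) (f : A0) (k : ℕ) (hk : 1212 ≤ k) : ‖co (y1 g + y2 f) k‖ ≤ 7 * ‖co g k‖ + 2 * ‖co f k‖ := by
  obtain ⟨h1, h2⟩ := SG.bd_high (k := k) (by omega)
  rw [Pool.Agent.H27.Leg.co_add, co_y1, co_y2]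
  have h3 : ‖SG.Y1 k (co g k)‖ ≤ 7 * ‖co g k‖ :=
    ((SG.Y1 k).le_opNorm _).trans (mul_le_mul_of_nonneg_right h1 (norm_nonneg _))
  have h4 : ‖SG.Y2 k (co f k)‖ ≤ 2 * ‖co f k‖ :=
    ((SG.Y2 k).le_opNorm _).trans (mul_le_mul_of_nonneg_right (h2.trans (by norm_num)) (norm_nonneg _))
  exact (norm_add_le _ _).trans (add_le_add h3 h4)

end Pool.Agent.H43.SF
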