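import Pool.Agent.H27.Leg.Gam
import Pool.Agent.H94.SF.Defs

/-!
# SF.Sp : the spaces `A0`, `X1` of the fixed point, inclusion, product, gradient product

`CI` : continuous functions on the layer. `w0 k = nu1^k`, `w1 k = nu1^k * muh k`, `muh k = max 1 (√(k(k+1)) / R0)`,
`nu1` a little larger than `SF.nu`.
-/

set_option autoImplicit false

noncomputable section

namespace Pool.Agent.H43.SF

open Pool.Agent.H27.Leg (W Wt KB scl c ct op iota evn evnAlg diag co sc mono)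

/-- continuous functions on the layer -/
abbrev CI : Type := C(Set.Icc SF.R0 SF.rho, ℝ)

/-- the weight, a little larger than `SF.nu` -/
def nu1 : ℝ := 1 + 10001 / 10 ^ 8

theorem nu_lt_nu1 : SF.nu < nu1 := by
  unfold SF.nu nu1
  norm_num

/-- the weight of one derivative in `x` -/
def muh (k : ℕ) : ℝ := max 1 (Real.sqrt (SF.lam k) / SF.R0)

/-- the weight of `A0` -/
def w0 (k : ℕ) : ℝ := nu1 ^ k

/-- the weight of `X1` -/
def w1 (k : ℕ) : ℝ := nu1 ^ k * muh k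

theorem one_le_muh (k : ℕ) : 1 ≤ muh k := le_max_left _ _

theorem muh_pos (k : ℕ) : 0 < muh k := one_pos.trans_le (one_le_muh k)

theorem sqrt_le_muh (k : ℕ) : Real.sqrt (SF.lam k) ≤ SF.R0 * muh k := by
  have h := le_max_right 1 (Real.sqrt (SF.lam k) / SF.R0)
  rw [div_le_iff₀ SF.R0_pos] at h
  rw [mul_comm]
  exact h

theorem nu_pos : 0 < nu1 := by
  unfold nu1
  norm_num

theorem w0_pos (k : ℕ) : 0 < w0 k := pow_pos nu_pos k

theorem w1_pos (k : ℕ) : 0 < w1 k := mul_pos (w0_pos k) (muh_pos k)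

theorem w0_le_w1 (k : ℕ) : w0 k ≤ w1 k := le_mul_of_one_le_right (w0_pos k).le (one_le_muh k)

theorem one_le_nu : 1 ≤ nu1 := by
  unfold nu1
  norm_num

theorem nu1_pow_ell : nu1 ^ SF.ell ≤ 10491 / 10000 := by
  have h : ((1 + 10001 / 10 ^ 8 : ℚ) ^ 478) ≤ 10491 / 10000 := by decide +kernel
  have h2 : (((1 + 10001 / 10 ^ 8 : ℚ) ^ 478 : ℚ) : ℝ) ≤ ((10491 / 10000 : ℚ) : ℝ) := by
    exact_mod_cast h
  push_cast at h2
  unfold nu1 SF.ell
  norm_num at h2 ⊢
  exact h2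

theorem wt_w0 : Wt w0 := Pool.Agent.H27.Leg.wt_pow one_le_nu

instance : Fact (Wt w0) := ⟨wt_w0⟩

theorem R0_gt : (1210.83 : ℝ) < SF.R0 := by
  have := SN.rho_gt
  unfold SF.R0 SF.wd SF.rho
  linarith

theorem R0_lt : SF.R0 < (1210.84 : ℝ) := by
  have := SN.rho_lt
  unfold SF.R0 SF.wd SF.rho
  linarith

theorem lam_nonneg (k : ℕ) : 0 ≤ SF.lam k := by
  unfold SF.lam
  positivity

/-- no weight for the low modes -/
theorem muh_low {k : ℕ} (hk : k ≤ 1210) : muh k = 1 := by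
  unfold muh
  refine max_eq_left ?_
  rw [div_le_one SF.R0_pos, Real.sqrt_le_left SF.R0_pos.le]
  have h1 : (k : ℝ) ≤ 1210 := by exact_mod_cast hk
  have h2 := R0_gt
  have h3 : SF.lam k ≤ 1210 * 1211 := by
    unfold SF.lam
    have h0 : (0 : ℝ) ≤ k := Nat.cast_nonneg k
    nlinarith
  nlinarith

theorem muh_high {k : ℕ} (hk : 1211 ≤ k) : muh k = Real.sqrt (SF.lam k) / SF.R0 := by
  unfold muh
  refine max_eq_right ?_
  rw [le_div_iff₀ SF.R0_pos, one_mul]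
  refine Real.le_sqrt_of_sq_le ?_
  have h1 : (1211 : ℝ) ≤ k := by exact_mod_cast hk
  have h2 := R0_lt
  have h3 := SF.R0_pos
  unfold SF.lam
  nlinarith

theorem sqrt_lam_add {a b L : ℕ} (h : L ≤ a + b) :
    Real.sqrt (SF.lam L) ≤ Real.sqrt (SF.lam a) + Real.sqrt (SF.lam b) := by
  have ha := lam_nonneg a
  have hb := lam_nonneg b
  have h1 : (L : ℝ) ≤ a + b := by exact_mod_cast h
  have h2 : (0 : ℝ) ≤ L := Nat.cast_nonneg L
  have ha0 : (0 : ℝ) ≤ a := Nat.cast_nonneg a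
  have hb0 : (0 : ℝ) ≤ b := Nat.cast_nonneg b
  have h3 : (a : ℝ) * b ≤ Real.sqrt (SF.lam a) * Real.sqrt (SF.lam b) := by
    rw [← Real.sqrt_mul ha]
    refine Real.le_sqrt_of_sq_le ?_
    unfold SF.lam
    nlinarith [mul_nonneg ha0 hb0, mul_nonneg (mul_nonneg ha0 hb0) ha0, mul_nonneg (mul_nonneg ha0 hb0) hb0]
  refine Real.sqrt_le_iff.2 ⟨by positivity, ?_⟩
  have h4 := Real.sq_sqrt ha
  have h5 := Real.sq_sqrt hb
  have h6 : SF.lam L ≤ SF.lam a + SF.lam b + 2 * (a * b) := by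
    unfold SF.lam
    nlinarith
  nlinarith

theorem muh_add {a b L : ℕ} (h : L ≤ a + b) : muh L ≤ muh a + muh b := by
  have h1 := one_le_muh a
  have h2 := one_le_muh b
  have h3 := sqrt_lam_add h
  have h4 := sqrt_le_muh a
  have h5 := sqrt_le_muh b
  refine (max_le (by linarith) ?_ : max 1 (Real.sqrt (SF.lam L) / SF.R0) ≤ muh a + muh b)
  rw [div_le_iff₀ SF.R0_pos]
  nlinarith

theorem w1_mul {a b L : ℕ} (h : L ≤ a + b) : w1 L ≤ 2 * (w1 a * w1 b) := by
  unfold w1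
  have h1 : nu1 ^ L ≤ nu1 ^ a * nu1 ^ b := by
    rw [← pow_add]
    exact pow_le_pow_right₀ one_le_nu h
  have h2 : muh L ≤ 2 * (muh a * muh b) := by
    have h3 := muh_add h
    have h4 := one_le_muh a
    have h5 := one_le_muh b
    nlinarith
  have h6 : 0 < nu1 ^ a := pow_pos nu_pos a
  have h7 : 0 < nu1 ^ b := pow_pos nu_pos b
  calc nu1 ^ L * muh L ≤ (nu1 ^ a * nu1 ^ b) * (2 * (muh a * muh b)) :=
        mul_le_mul h1 h2 (muh_pos L).le (by positivity)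
    _ = 2 * (nu1 ^ a * muh a * (nu1 ^ b * muh b)) := by ring

/-- the spaces -/
abbrev A0 : Type := W CI w0
abbrev X1 : Type := W CI w1

/-- a continuous function on the layer -/
def fn (f : ℝ → ℝ) (h : ContinuousOn f SF.I0) : CI := ⟨fun s => f s, h.domRestrict⟩

@[simp] theorem fn_apply (f : ℝ → ℝ) (h : ContinuousOn f SF.I0) (s : Set.Icc SF.R0 SF.rho) : fn f h s = f s := rfl

theorem fn_norm_le {f : ℝ → ℝ} (h : ContinuousOn f SF.I0) {C : ℝ} (hC : 0 ≤ C) (hf : ∀ s ∈ SF.I0, |f s| ≤ C) :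
    ‖fn f h‖ ≤ C := by
  rw [ContinuousMap.norm_le _ hC]
  intro s
  exact hf s s.2

/-- the inclusion -/
def incL : X1 →L[ℝ] A0 :=
  diag w1 w0 (fun _ => ContinuousLinearMap.id ℝ CI) (C := 1) (fun n => by
    rw [one_mul]
    refine (mul_le_of_le_one_right (w0_pos n).le ?_).trans (w0_le_w1 n)
    exact ContinuousLinearMap.norm_id_le) w1_pos w0_pos

theorem co_inc (f : X1) (n : ℕ) : co (incL f) n = co f n :=
  Pool.Agent.H27.Leg.co_diag _ _ _ _ _

theorem norm_inc_le (f : X1) : ‖incL f‖ ≤ ‖f‖ := by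
  have h := Pool.Agent.H27.Leg.norm_diag_le (w₁ := w1) (w₂ := w0) (D := fun _ => ContinuousLinearMap.id ℝ CI) (C := 1)
    (fun n => by
      rw [one_mul]
      refine (mul_le_of_le_one_right (w0_pos n).le ?_).trans (w0_le_w1 n)
      exact ContinuousLinearMap.norm_id_le) w1_pos w0_pos f
  rwa [one_mul] at h

/-- the kernel of the product on `X1` -/
theorem kb_pr : KB (scl c w1 w1 w1) 2 := by
  intro a b
  have h1 : ∀ L ∈ Finset.range (a + b + 1), |scl c w1 w1 w1 a b L| ≤ 2 * |c a b L| := by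
    intro L hL
    rw [Finset.mem_range] at hL
    have ha := w1_pos a
    have hb := w1_pos b
    have hL' := w1_pos L
    unfold scl
    rw [mul_div_assoc, abs_mul, mul_comm 2]
    refine mul_le_mul_of_nonneg_left ?_ (abs_nonneg _)
    rw [abs_of_pos (by positivity), div_le_iff₀ (by positivity)]
    exact w1_mul (by omega)
  refine (Finset.sum_le_sum h1).trans ?_
  rw [← Finset.mul_sum]
  have := Pool.Agent.H27.Leg.kb_c a b
  linarith

/-- the product on `X1` -/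
def prL : X1 →L[ℝ] X1 →L[ℝ] X1 := op w1 w1 w1 kb_pr

theorem norm_pr_le (f g : X1) : ‖prL f g‖ ≤ 2 * (‖f‖ * ‖g‖) := by
  have h := Pool.Agent.H27.Leg.norm_op_le (w₃ := w1) kb_pr f g
  rwa [mul_assoc] at h

theorem sc_inc (f : X1) (n : ℕ) : sc (incL f) n = (w0 n * (w1 n)⁻¹) • sc f n := by
  rw [Pool.Agent.H27.Leg.sc_eq_co (fun n => (w0_pos n).ne'), co_inc, mul_smul]
  rfl

theorem inc_mono (n : ℕ) (y : CI) : incL (mono n y) = mono n ((w0 n * (w1 n)⁻¹) • y) := by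
  refine Pool.Agent.H27.Leg.W.ext fun m => ?_
  rw [sc_inc, Pool.Agent.H27.Leg.sc_mono, Pool.Agent.H27.Leg.sc_mono]
  by_cases h : m = n
  · subst h
    rw [if_pos rfl, if_pos rfl]
  · rw [if_neg h, if_neg h, smul_zero]

theorem inc_pr (f g : X1) : incL (prL f g) = incL f * incL g := by
  have h : (ContinuousLinearMap.compL ℝ X1 X1 A0 incL).comp prL =
      ((ContinuousLinearMap.compL ℝ X1 A0 A0).flip incL).comp ((Pool.Agent.H27.Leg.mulW w0).comp incL) := by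
    refine Pool.Agent.H27.Leg.bil_ext fun a y b z => ?_
    change incL (prL (mono a y) (mono b z)) = Pool.Agent.H27.Leg.mulW w0 (incL (mono a y)) (incL (mono b z))
    rw [inc_mono, inc_mono, Pool.Agent.H27.Leg.mulW_mono]
    unfold prL
    rw [Pool.Agent.H27.Leg.op_mono]
    unfold Pool.Agent.H27.Leg.Mk
    rw [map_sum]
    refine Finset.sum_congr rfl fun L _ => ?_
    rw [inc_mono, smul_mul_smul_comm, smul_smul, smul_smul]
    congr 2
    unfold Pool.Agent.H27.Leg.cw scl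
    have := (w0_pos a).ne'
    have := (w0_pos b).ne'
    have := (w1_pos a).ne'
    have := (w1_pos b).ne'
    have := (w1_pos L).ne'
    field_simp
  have h2 := congrArg (fun T : X1 →L[ℝ] X1 →L[ℝ] A0 => T f g) h
  exact h2

/-- the kernel of the gradient product -/
theorem kb_gam : KB (scl ct w1 w1 w0) (SF.R0 ^ 2 / Real.sqrt 2) := by
  refine Pool.Agent.H27.Leg.kb_ct w1_pos w1_pos w0_pos fun a b L h => ?_
  have h1 : nu1 ^ L ≤ nu1 ^ a * nu1 ^ b := by
    rw [← pow_add]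
    exact pow_le_pow_right₀ one_le_nu h
  have h2 : Real.sqrt (Pool.Agent.H27.Leg.lam a * Pool.Agent.H27.Leg.lam b) ≤ (SF.R0 * muh a) * (SF.R0 * muh b) := by
    rw [Real.sqrt_mul (Pool.Agent.H27.Leg.lam_nonneg a)]
    exact mul_le_mul (sqrt_le_muh a) (sqrt_le_muh b) (Real.sqrt_nonneg _) (mul_nonneg SF.R0_pos.le (muh_pos a).le)
  have h6 : 0 < nu1 ^ a := pow_pos nu_pos a
  have h7 : 0 < nu1 ^ b := pow_pos nu_pos b
  unfold w0 w1
  calc nu1 ^ L * Real.sqrt (Pool.Agent.H27.Leg.lam a * Pool.Agent.H27.Leg.lam b) ≤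
        (nu1 ^ a * nu1 ^ b) * ((SF.R0 * muh a) * (SF.R0 * muh b)) :=
        mul_le_mul h1 h2 (Real.sqrt_nonneg _) (by positivity)
    _ = SF.R0 ^ 2 * (nu1 ^ a * muh a * (nu1 ^ b * muh b)) := by ring

/-- the function `1 / s ^ 2` -/
def isq : CI := fn (fun s => 1 / s ^ 2) (by
  refine ContinuousOn.div continuousOn_const (continuousOn_pow 2) fun s hs => ?_
  exact pow_ne_zero 2 (SF.R0_pos.trans_le hs.1).ne')

theorem norm_isq_le : ‖isq‖ ≤ 1 / SF.R0 ^ 2 := by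
  refine fn_norm_le _ (by positivity) fun s hs => ?_
  have h := SF.R0_pos
  have hs0 : 0 < s := h.trans_le hs.1
  rw [abs_of_pos (by positivity)]
  exact one_div_le_one_div_of_le (by positivity) (pow_le_pow_left₀ h.le hs.1 2)

/-- the gradient product over `s ^ 2` -/
def gamL : X1 →ₗ[ℝ] X1 →ₗ[ℝ] A0 :=
  LinearMap.mk₂ ℝ (fun f g => iota CI w0 isq * Pool.Agent.H27.Leg.gam w1 w1 w0 kb_gam f g)
    (fun f f' g => by rw [map_add, add_apply, mul_add])
    (fun t f g => by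
      rw [map_smul, smul_apply]
      exact (Pool.Agent.H27.Leg.mulW w0 (iota CI w0 isq)).map_smul t _)
    (fun f g g' => by rw [map_add, mul_add])
    (fun t f g => by
      rw [map_smul]
      exact (Pool.Agent.H27.Leg.mulW w0 (iota CI w0 isq)).map_smul t _)

theorem gamL_apply (f g : X1) : gamL f g = iota CI w0 isq * Pool.Agent.H27.Leg.gam w1 w1 w0 kb_gam f g := rfl

theorem norm_gam_le (f g : X1) : ‖gamL f g‖ ≤ 1001 / 1000 * (‖f‖ * ‖g‖) := by
  rw [gamL_apply]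
  refine (norm_mul_le _ _).trans ?_
  rw [Pool.Agent.H27.Leg.norm_iota]
  have h1 := Pool.Agent.H27.Leg.norm_gam_le kb_gam f g
  have h2 := norm_isq_le
  have h3 : 0 < SF.R0 := SF.R0_pos
  have h4 : (1 : ℝ) ≤ Real.sqrt 2 := by
    rw [Real.one_le_sqrt]
    norm_num
  have h5 : SF.R0 ^ 2 / Real.sqrt 2 * ‖f‖ * ‖g‖ ≤ SF.R0 ^ 2 * (‖f‖ * ‖g‖) := by
    rw [mul_assoc]
    exact mul_le_mul_of_nonneg_right (div_le_self (by positivity) h4) (mul_nonneg (norm_nonneg _) (norm_nonneg _))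
  have h6 : 0 ≤ ‖f‖ * ‖g‖ := mul_nonneg (norm_nonneg _) (norm_nonneg _)
  calc ‖isq‖ * ‖Pool.Agent.H27.Leg.gam w1 w1 w0 kb_gam f g‖ ≤ (1 / SF.R0 ^ 2) * (SF.R0 ^ 2 * (‖f‖ * ‖g‖)) :=
        mul_le_mul h2 (h1.trans h5) (norm_nonneg _) (by positivity)
    _ = ‖f‖ * ‖g‖ := by field_simp
    _ ≤ 1001 / 1000 * (‖f‖ * ‖g‖) := by linarith

end Pool.Agent.H43.SF
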